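import Mathlib

namespace Pool.Agent.Results.MP_38bcdd_an.Counter

open MeasureTheory FourierTransform SchwartzMap Set Complex
open scoped InnerProductSpace ComplexConjugate Real ENNReal

/-- `L²(ℝ)`. -/
noncomputable abbrev H := Lp ℂ 2 (volume : Measure ℝ)

/-- A Riesz basis: the image of an orthonormal basis under a bounded invertible operator. -/
def IsRieszBasis {ι E : Type} [NormedAddCommGroup E] [InnerProductSpace ℂ E] (w : ι → E) : Prop :=
  ∃ (b : HilbertBasis ι ℂ E) (T : E ≃L[ℂ] E), ∀ j, w j = T (b j)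

/-- Two different members of the family are not orthogonal. -/
def NonOrth {ι E : Type} [NormedAddCommGroup E] [InnerProductSpace ℂ E] (w : ι → E) : Prop :=
  ∃ j k, j ≠ k ∧ ⟪w j, w k⟫_ℂ ≠ 0

/-- A function representing `f ∈ L²(ℝ)`. -/
noncomputable def val (f : H) : ℝ → ℂ := f

/-- The Fourier transform on `L²(ℝ)`. -/
noncomputable def ft (f : H) : H := 𝓕 f

/-- `w` is the system `ψ_{i,λ,a}(x) = |a|^{1/2} ψ_i(a x - λ)` with `ψ̂_i = 1_{Ω_i}`. -/
def IsSystem {m : ℕ} (Ω Λ : Fin m → Set ℝ) (A : Set ℝ) (w : ((i : Fin m) × (Λ i × A)) → H) : Prop :=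
  ∃ ψ : Fin m → H, (∀ i, val (ft (ψ i)) =ᵐ[volume] (Ω i).indicator 1) ∧
    ∀ j, val (w j) =ᵐ[volume] fun x => (√|(j.2.2 : ℝ)| : ℂ) * val (ψ j.1) (j.2.2 * x - j.2.1)

/-- The multiplicity function `∑_{α ∈ A} 1_{α Ω}`. -/
noncomputable def mult (A Ω : Set ℝ) (ξ : ℝ) : ℝ≥0∞ :=
  ∑' α : A, ((fun η => (α : ℝ) * η) '' Ω).indicator 1 ξ

theorem inv_ae {f : ℝ → ℂ} (hf : Integrable f) (F : H) (h2 : F =ᵐ[volume] f) :
    ((𝓕⁻ F : H) : ℝ → ℂ) =ᵐ[volume] 𝓕⁻ f := by
  have hc : Continuous (𝓕⁻ f) := by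
    rw [Real.fourierInv_eq_fourier_comp_neg]
    exact VectorFourier.fourierIntegral_continuous Real.continuous_fourierChar
      (L := innerₗ ℝ) continuous_inner hf.comp_neg
  apply ae_eq_of_integral_contDiff_smul_eq
  · exact (Lp.memLp _).locallyIntegrable (by norm_num)
  · exact hc.locallyIntegrable
  intro g hg hgs
  have hgs' : HasCompactSupport (fun x => (g x : ℂ)) :=
    hgs.comp_left (g := fun r : ℝ => (r : ℂ)) (by simp)
  let φ : 𝓢(ℝ, ℂ) := hgs'.toSchwartzMap (Complex.ofRealCLM.contDiff.comp hg)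
  have hφ : ∀ x, φ x = (g x : ℂ) := fun x => rfl
  have h1 := congrArg (fun T : 𝓢'(ℝ, ℂ) => T φ) (Lp.fourierInv_toTemperedDistribution_eq F)
  simp only [TemperedDistribution.fourierInv_apply, Lp.toTemperedDistribution_apply] at h1
  have h3 : ∫ x, (𝓕⁻ φ : 𝓢(ℝ, ℂ)) x • (F : ℝ → ℂ) x = ∫ x, φ x • 𝓕⁻ f x := by
    have h4 : ∫ x, (𝓕⁻ φ : 𝓢(ℝ, ℂ)) x • (F : ℝ → ℂ) x = ∫ x, 𝓕⁻ (φ : ℝ → ℂ) x • f x := by
      apply integral_congr_ae
      filter_upwards [h2] with x hx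
      rw [hx, SchwartzMap.fourierInv_coe]
    rw [h4]
    have := VectorFourier.integral_fourierIntegral_smul_eq_flip (L := -innerₗ ℝ)
      Real.continuous_fourierChar (continuous_inner (𝕜 := ℝ) (E := ℝ)).neg (φ.integrable (μ := volume)) hf
    have e : (-innerₗ ℝ).flip = -innerₗ ℝ := by ext; simp
    rw [e] at this
    exact this
  rw [h3] at h1
  simp only [hφ, smul_eq_mul] at h1
  simpa [Complex.real_smul] using h1.symm

noncomputable def ex (a l ξ : ℝ) : ℂ := (√a : ℂ)⁻¹ * exp (-(2 * π * I * l * ξ / a))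

noncomputable def g (m a l : ℝ) : ℝ → ℂ := (Ioc (m * a) (m * a + a)).indicator (ex a l)

theorem g_mem (m a l : ℝ) (p : ℝ≥0∞) : MemLp (g m a l) p volume := by
  rw [g, memLp_indicator_iff_restrict measurableSet_Ioc]
  refine MemLp.of_bound (by unfold ex; fun_prop) ‖(√a : ℂ)⁻¹‖ (ae_of_all _ fun ξ => ?_)
  have : -(2 * π * I * l * ξ / a : ℂ) = (-(2 * π * l * ξ / a) : ℝ) * I := by push_cast; ring
  rw [ex, norm_mul, this, norm_exp_ofReal_mul_I, mul_one]

noncomputable def G (m a l : ℝ) : H := (g_mem m a l 2).toLp _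

theorem G_ae (m a l : ℝ) : G m a l =ᵐ[volume] g m a l := MemLp.coeFn_toLp _

theorem inner_G (m a l : ℝ) (f : H) : ⟪G m a l, f⟫_ℂ =
    (√a : ℂ)⁻¹ * ∫ ξ in Ioc (m * a) (m * a + a), exp (2 * π * I * l * ξ / a) * f ξ := by
  rw [L2.inner_def, ← integral_const_mul, ← integral_indicator measurableSet_Ioc]
  apply integral_congr_ae
  filter_upwards [G_ae m a l] with ξ h
  rw [h, g]
  by_cases hξ : ξ ∈ Ioc (m * a) (m * a + a)
  · simp only [indicator_of_mem hξ, ex, RCLike.inner_apply, map_mul, map_inv₀, conj_ofReal,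
      ← exp_conj, map_neg, map_div₀, conj_I, map_ofNat]
    ring_nf
  · simp [indicator_of_notMem hξ]

theorem G_disj {m a l m' a' l' : ℝ}
    (h : m * a + a ≤ m' * a' ∨ m' * a' + a' ≤ m * a) : ⟪G m a l, G m' a' l'⟫_ℂ = 0 := by
  rw [inner_G, setIntegral_eq_zero_of_ae_eq_zero, mul_zero]
  filter_upwards [G_ae m' a' l'] with ξ h1 h2
  rw [h1, g, indicator_of_notMem, mul_zero]
  intro h3
  rcases h with h | h <;> linarith [h2.1, h2.2, h3.1, h3.2]

theorem G_same (m : ℝ) {a : ℝ} (ha : 0 < a) (k l : ℤ) :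
    ⟪G m a k, G m a l⟫_ℂ = if k = l then 1 else 0 := by
  have hs : (√a : ℂ) * √a = a := by exact_mod_cast Real.mul_self_sqrt ha.le
  have hs0 : (√a : ℂ) ≠ 0 := by exact_mod_cast (Real.sqrt_pos.2 ha).ne'
  have ha0 : (a : ℂ) ≠ 0 := by exact_mod_cast ha.ne'
  have : ∫ ξ in Ioc (m * a) (m * a + a), exp (2 * π * I * (k : ℝ) * ξ / a) * G m a l ξ =
      (√a : ℂ)⁻¹ * ∫ ξ in (m * a)..(m * a + a), exp ((2 * π * I * (k - l : ℤ) / a) * ξ) := by
    rw [intervalIntegral.integral_of_le (by linarith), ← integral_const_mul]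
    refine setIntegral_congr_ae measurableSet_Ioc ?_
    filter_upwards [G_ae m a l] with ξ h1 h2
    rw [h1, g, indicator_of_mem h2, ex, mul_left_comm, ← exp_add]
    congr 2; push_cast; ring
  rw [inner_G, this]
  split_ifs with h
  · subst h
    simp
    field_simp
    linear_combination -hs
  · have hc : (2 * π * I * (k - l : ℤ) / a : ℂ) ≠ 0 := by
      have : ((k - l : ℤ) : ℂ) ≠ 0 := by exact_mod_cast sub_ne_zero.2 h
      have := Real.pi_ne_zero
      simp_all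
    rw [integral_exp_mul_complex hc]
    have : (2 * π * I * (k - l : ℤ) / a : ℂ) * ((m * a + a : ℝ) : ℂ) =
        (2 * π * I * (k - l : ℤ) / a : ℂ) * ((m * a : ℝ) : ℂ) + (k - l : ℤ) * (2 * π * I) := by
      push_cast; field_simp
    rw [this, exp_add, exp_int_mul_two_pi_mul_I]; simp

theorem G_compl (m : ℝ) {a : ℝ} (ha : 0 < a) (f : H) (h : ∀ k : ℤ, ⟪G m a k, f⟫_ℂ = 0) :
    ∀ᵐ ξ, ξ ∈ Ioc (m * a) (m * a + a) → f ξ = 0 := by
  have hab : m * a < m * a + a := by linarith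
  have hs0 : (√a : ℂ)⁻¹ ≠ 0 := inv_ne_zero (by exact_mod_cast (Real.sqrt_pos.2 ha).ne')
  have h2 : MemLp f 2 (volume.restrict (Ioc (m * a) (m * a + a))) := (Lp.memLp f).restrict _
  have h1 := tsum_sq_fourierCoeffOn hab h2
  have h0 : ∀ k, fourierCoeffOn hab f k = 0 := by
    intro k
    have := h (-k)
    rw [inner_G, mul_eq_zero, ← intervalIntegral.integral_of_le hab.le] at this
    rw [fourierCoeffOn_eq_integral]
    simp only [fourier_coe_apply, smul_eq_mul, add_sub_cancel_left]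
    rw [smul_eq_zero]; right
    simpa using this.resolve_left hs0
  simp only [h0, norm_zero, add_sub_cancel_left, smul_eq_mul] at h1
  have h3 : ∫ x in Ioc (m * a) (m * a + a), ‖f x‖ ^ 2 = 0 := by
    rw [← intervalIntegral.integral_of_le hab.le]
    have : a⁻¹ ≠ 0 := inv_ne_zero ha.ne'
    simpa [this] using h1.symm
  rw [integral_eq_zero_iff_of_nonneg (fun x => by positivity)
    ((memLp_two_iff_integrable_sq_norm h2.1).1 h2)] at h3
  rw [← ae_restrict_iff' measurableSet_Ioc]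
  filter_upwards [h3] with ξ h4
  simpa using h4

def Zr : Set ℝ := range (Int.cast : ℤ → ℝ)
def Ar : Set ℝ := range (fun n : ℤ => (2 : ℝ) ^ n)
abbrev J := ↥Zr × ↥Ar
abbrev Ix := (_ : Fin 2) × J
def mm : Fin 2 → ℝ := ![1, -2]
def Om : Fin 2 → Set ℝ := ![Ioc 1 2, Ioc (-2) (-1) ∪ Ioc 2 3]

theorem Ar_pos (a : Ar) : 0 < (a : ℝ) := by obtain ⟨_, n, rfl⟩ := a; positivity

theorem Ar_sep (a b : Ar) (h : a ≠ b) : 2 * (a : ℝ) ≤ b ∨ 2 * (b : ℝ) ≤ a := by
  obtain ⟨_, n, rfl⟩ := a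
  obtain ⟨_, k, rfl⟩ := b
  have key : ∀ n k : ℤ, n < k → 2 * (2 : ℝ) ^ n ≤ 2 ^ k := fun n k h => by
    rw [mul_comm, ← zpow_add_one₀ two_ne_zero]
    exact zpow_le_zpow_right₀ one_le_two h
  rcases lt_trichotomy n k with h1 | rfl | h1
  · exact Or.inl (key _ _ h1)
  · exact absurd rfl h
  · exact Or.inr (key _ _ h1)

open Classical in
theorem on_m (m : ℝ) (hm : m = 1 ∨ m = -2 ∨ m = 2) (j k : J) :
    ⟪G m j.2 j.1, G m k.2 k.1⟫_ℂ = if j = k then 1 else 0 := by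
  obtain ⟨⟨_, x, rfl⟩, a⟩ := j
  obtain ⟨⟨_, y, rfl⟩, b⟩ := k
  by_cases h : a = b
  · subst h
    simpa using G_same m (Ar_pos a) x y
  · rw [if_neg (by simp [h])]
    apply G_disj
    have := Ar_pos a
    have := Ar_pos b
    rcases Ar_sep a b h with h1 | h1 <;> rcases hm with rfl | rfl | rfl <;>
      first | (left; simp only; linarith) | (right; simp only; linarith)

theorem on_m' (m : ℝ) (hm : m = 1 ∨ m = -2 ∨ m = 2) : Orthonormal ℂ fun j : J => G m j.2 j.1 := by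
  classical
  exact orthonormal_iff_ite.2 fun j k => by convert on_m m hm j k

theorem neg_pos' (m : ℝ) (hm : 0 ≤ m) (j k : J) : ⟪G (-2) j.2 j.1, G m k.2 k.1⟫_ℂ = 0 := by
  apply G_disj
  have := Ar_pos j.2
  have := mul_nonneg hm (Ar_pos k.2).le
  left; linarith

noncomputable def bb (j : Ix) : H := G (mm j.1) j.2.2 j.2.1

theorem bb_on : Orthonormal ℂ bb := by
  classical
  rw [orthonormal_iff_ite]
  rintro ⟨i, j⟩ ⟨i', k⟩
  fin_cases i <;> fin_cases i'
  · simpa [bb, mm] using on_m 1 (by simp) j k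
  · simpa [bb, mm, inner_eq_zero_symm] using neg_pos' 1 zero_le_one k j
  · simpa [bb, mm] using neg_pos' 1 zero_le_one j k
  · simpa [bb, mm] using on_m (-2) (by simp) j k

theorem bb_compl (f : H) (h : ∀ j, ⟪bb j, f⟫_ℂ = 0) : f = 0 := by
  have h1 : ∀ (i : Fin 2) (n : ℤ), ∀ᵐ ξ, ξ ∈ Ioc (mm i * 2 ^ n) (mm i * 2 ^ n + 2 ^ n) → f ξ = 0 :=
    fun i n => G_compl (mm i) (by positivity) f fun k => h ⟨i, ⟨_, k, rfl⟩, ⟨_, n, rfl⟩⟩
  have h2 := ae_all_iff.2 fun i => ae_all_iff.2 (h1 i)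
  ext1
  filter_upwards [h2, Lp.coeFn_zero ℂ 2 (volume : Measure ℝ), Measure.ae_ne volume (0 : ℝ)]
    with ξ h3 h4 h5
  rw [h4]
  rcases lt_or_gt_of_ne h5 with h6 | h6
  · obtain ⟨n, hn⟩ := exists_mem_Ico_zpow (neg_pos.2 h6) one_lt_two
    rw [zpow_add_one₀ two_ne_zero] at hn
    exact h3 1 n ⟨by simp [mm]; linarith [hn.2], by simp [mm]; linarith [hn.1]⟩
  · obtain ⟨n, hn⟩ := exists_mem_Ioc_zpow h6 one_lt_two
    rw [zpow_add_one₀ two_ne_zero] at hn
    exact h3 0 n ⟨by simp [mm]; linarith [hn.1], by simp [mm]; linarith [hn.2]⟩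

noncomputable def B : HilbertBasis Ix ℂ H := HilbertBasis.mkOfOrthogonalEqBot bb_on (by
  rw [eq_bot_iff]
  intro f hf
  exact bb_compl f fun j => hf _ (Submodule.subset_span ⟨j, rfl⟩))

theorem B_apply (j : Ix) : B j = bb j := by simp [B]

section
variable {v : J → H} (hv : Orthonormal ℂ v)

noncomputable def syn : lp (fun _ : J => ℂ) 2 →L[ℂ] H :=
  hv.orthogonalFamily.linearIsometry.toContinuousLinearMap

open Classical in
theorem syn_single (j : J) : syn hv (lp.single 2 j 1) = v j := by simp [syn]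

theorem adj_apply (x : H) (j : J) : (syn hv).adjoint x j = ⟪v j, x⟫_ℂ := by
  classical
  rw [← syn_single hv, ← ContinuousLinearMap.adjoint_inner_right]
  simp [lp.inner_single_left]

end

noncomputable def S : H →L[ℂ] H := syn (on_m' 2 (by simp)) ∘L (syn (on_m' (-2) (by simp))).adjoint

theorem S_zero (j : J) : S (bb ⟨0, j⟩) = 0 := by
  have : (syn (on_m' (-2) (by simp))).adjoint (bb ⟨0, j⟩) = 0 := by
    ext k; rw [adj_apply]; exact neg_pos' 1 zero_le_one k j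
  simp [S, this]

theorem S_one (j : J) : S (bb ⟨1, j⟩) = G 2 j.2 j.1 := by
  classical
  have : (syn (on_m' (-2) (by simp))).adjoint (bb ⟨1, j⟩) = lp.single 2 j 1 := by
    ext k; rw [adj_apply]
    have := on_m (-2) (by simp) k j
    simpa [bb, mm, lp.single_apply, Pi.single_apply] using this
  rw [S, ContinuousLinearMap.comp_apply, this]
  convert syn_single (on_m' 2 (by simp)) j

theorem S_S (x : H) : S (S x) = 0 := by
  have : ∀ y, (syn (on_m' (-2) (by simp))).adjoint (syn (on_m' 2 (by simp)) y) = 0 := by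
    intro y
    ext k
    have h : (syn (on_m' 2 (by simp))).adjoint (G (-2) k.2 k.1) = 0 := by
      ext l; rw [adj_apply, lp.coeFn_zero, Pi.zero_apply, inner_eq_zero_symm]
      exact neg_pos' 2 zero_le_two k l
    rw [adj_apply, ← ContinuousLinearMap.adjoint_inner_left, h]; simp
  simp [S, this]

noncomputable def T : H ≃L[ℂ] H := ContinuousLinearEquiv.equivOfInverse (1 + S) (1 - S)
  (fun x => by simp [S_S]) (fun x => by simp [S_S])

noncomputable def W (i : Fin 2) (a l ξ : ℝ) : ℂ := (Om i).indicator 1 (ξ / a) * ex a l ξ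

theorem g_eq (m : ℝ) {a : ℝ} (ha : 0 < a) (l ξ : ℝ) :
    g m a l ξ = (Ioc m (m + 1)).indicator 1 (ξ / a) * ex a l ξ := by
  have : ξ ∈ Ioc (m * a) (m * a + a) ↔ ξ / a ∈ Ioc m (m + 1) := by
    simp only [mem_Ioc, lt_div_iff₀ ha, div_le_iff₀ ha, add_mul, one_mul]
  by_cases h : ξ ∈ Ioc (m * a) (m * a + a)
  · simp [g, h, this.1 h]
  · simp [g, h, mt this.2 h]

theorem W_eq (j : Ix) : T (bb j) =ᵐ[volume] W j.1 j.2.2 j.2.1 ∧ Integrable (W j.1 j.2.2 j.2.1) := by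
  obtain ⟨i, j⟩ := j
  have ha := Ar_pos j.2
  fin_cases i
  · have : W 0 j.2 j.1 = g 1 j.2 j.1 := by
      funext ξ; rw [g_eq 1 ha, W]; norm_num [Om]
    have e : T (bb ⟨0, j⟩) = G 1 j.2 j.1 := by simp [T, S_zero]; rfl
    exact ⟨by simpa [e, this] using G_ae 1 j.2 j.1,
      by simpa [this] using memLp_one_iff_integrable.1 (g_mem 1 j.2 j.1 1)⟩
  · have : W 1 j.2 j.1 = g (-2) j.2 j.1 + g 2 j.2 j.1 := by
      funext ξ
      rw [Pi.add_apply, g_eq _ ha, g_eq _ ha, W, ← add_mul]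
      simp only [Om, Matrix.cons_val_one, Matrix.cons_val_zero]
      rw [indicator_union_of_disjoint (by simp; norm_num)]
      norm_num
    have e : T (bb ⟨1, j⟩) = G (-2) j.2 j.1 + G 2 j.2 j.1 := by simp [T, S_one]; rfl
    refine ⟨?_, ?_⟩
    · show T (bb ⟨1, j⟩) =ᵐ[volume] W 1 j.2 j.1
      rw [e, this]
      exact (Lp.coeFn_add _ _).trans ((G_ae _ _ _).add (G_ae _ _ _))
    · show Integrable (W 1 j.2 j.1)
      rw [this]
      exact (memLp_one_iff_integrable.1 (g_mem _ _ _ 1)).add (memLp_one_iff_integrable.1 (g_mem _ _ _ 1))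

theorem W_scale (i : Fin 2) {a : ℝ} (ha : 0 < a) (l x : ℝ) :
    𝓕⁻ (W i a l) x = (√|a| : ℂ) * 𝓕⁻ (W i 1 0) (a * x - l) := by
  have hs : (√a : ℂ) * √a = a := by exact_mod_cast Real.mul_self_sqrt ha.le
  have hs0 : (√a : ℂ) ≠ 0 := by exact_mod_cast (Real.sqrt_pos.2 ha).ne'
  have ha0 : (a : ℂ) ≠ 0 := by exact_mod_cast ha.ne'
  rw [Real.fourierInv_eq', Real.fourierInv_eq', abs_of_pos ha]
  have h := Measure.integral_comp_div (fun v : ℝ =>
    exp (↑(2 * π * ⟪v, a * x - l⟫_ℝ) * I) • W i 1 0 v) a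
  rw [abs_of_pos ha, real_smul] at h
  have h2 : ∀ v : ℝ, exp (↑(2 * π * ⟪v, x⟫_ℝ) * I) • W i a l v =
      (√a : ℂ)⁻¹ * (exp (↑(2 * π * ⟪v / a, a * x - l⟫_ℝ) * I) • W i 1 0 (v / a)) := by
    intro v
    have : exp (↑(2 * π * ⟪v / a, a * x - l⟫_ℝ) * I) =
        exp (↑(2 * π * ⟪v, x⟫_ℝ) * I) * exp (-(2 * π * I * l * v / a)) := by
      rw [← exp_add]; congr 1
      simp only [RCLike.inner_apply, conj_trivial]
      push_cast; field_simp; ring
    rw [this]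
    simp [W, ex]; ring
  simp only [h2]
  rw [integral_const_mul, h, ← mul_assoc]
  congr 1
  field_simp
  linear_combination -hs

noncomputable def w (j : Ix) : H := 𝓕⁻ (T (bb j))

theorem mult_neg (ξ : ℝ) (h : ξ ∈ Ico (-2 : ℝ) (-1)) (h' : ξ ≠ -2) :
    mult Ar (⋃ i, Om i) ξ = 1 := by
  rw [mult, tsum_eq_single ⟨1, 0, by simp⟩]
  · rw [indicator_of_mem]
    · rfl
    · exact ⟨ξ, mem_iUnion.2 ⟨1, Or.inl ⟨lt_of_le_of_ne h.1 h'.symm, h.2.le⟩⟩, by simp⟩
  · intro a ha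
    apply indicator_of_notMem
    rintro ⟨η, hη, rfl⟩
    obtain ⟨i, hi⟩ := mem_iUnion.1 hη
    have hp := Ar_pos a
    have h1 := h.1
    have h2 := h.2
    simp only at h1 h2 h'
    have h3 : η ∈ Ioc (-2 : ℝ) (-1) := by
      fin_cases i
      · exact absurd hi.1 (by nlinarith)
      · exact hi.resolve_right fun h4 => by nlinarith [h4.1]
    have h4 := lt_of_le_of_ne h1 h'.symm
    rcases Ar_sep a _ ha with h5 | h5 <;> simp only at h5 <;> nlinarith [h3.1, h3.2]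

theorem mult_pos (ξ : ℝ) (h : ξ ∈ Ioc (2 : ℝ) 3) : 2 ≤ mult Ar (⋃ i, Om i) ξ := by
  classical
  let a : Ar := ⟨1, 0, by simp⟩
  let b : Ar := ⟨2, 1, by simp⟩
  refine le_trans ?_ (ENNReal.sum_le_tsum {a, b})
  rw [Finset.sum_pair (by simp [a, b]), indicator_of_mem, indicator_of_mem]
  · simp [one_add_one_eq_two]
  · exact ⟨ξ / 2, mem_iUnion.2 ⟨0, by constructor <;> linarith [h.1, h.2]⟩, by simp only [b]; ring⟩
  · exact ⟨ξ, mem_iUnion.2 ⟨1, Or.inr h⟩, by simp [a]⟩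

theorem result : ∃ (m : ℕ) (Ω Λ : Fin m → Set ℝ) (A : Set ℝ) (w : ((i : Fin m) × (Λ i × A)) → H),
    (∀ i, MeasurableSet (Ω i) ∧ 0 < volume (Ω i) ∧ volume (Ω i) < ∞ ∧ (Λ i).Countable) ∧
    Pairwise (Function.onFun Disjoint Ω) ∧ A.Countable ∧ 0 ∉ A ∧
    IsSystem Ω Λ A w ∧ IsRieszBasis w ∧ NonOrth w ∧
    ∀ k : ℕ, ¬∀ᵐ ξ, mult A (⋃ i, Ω i) ξ = k := by
  let z : J := (⟨0, 0, by simp⟩, ⟨1, 0, by simp⟩)
  refine ⟨2, Om, fun _ => Zr, Ar, w, fun i => ?_, ?_, countable_range _,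
    fun h => (Ar_pos ⟨0, h⟩).ne rfl, ⟨fun i => w ⟨i, z⟩, fun i => ?_, fun j => ?_⟩,
    ⟨B, T.trans (Lp.fourierTransformₗᵢ ℝ ℂ).symm.toContinuousLinearEquiv, fun j => ?_⟩, ?_, ?_⟩
  · fin_cases i
    · simp [Om, Zr, countable_range]
    · refine ⟨by simp [Om], ?_, ?_, countable_range _⟩
      · exact lt_of_lt_of_le (by simp) (measure_mono subset_union_left)
      · exact (measure_union_le _ _).trans_lt (by simp)
  · intro i j h
    fin_cases i <;> fin_cases j <;> simp [Function.onFun, Om] at h ⊢ <;> norm_num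
  · beta_reduce
    rw [val, ft, w, fourier_fourierInv_eq]
    refine (W_eq ⟨i, z⟩).1.trans (ae_of_all _ fun ξ => ?_)
    simp [W, ex, z]
  · have h1 := inv_ae (W_eq j).2 _ (W_eq j).1
    have h2 := inv_ae (W_eq ⟨j.1, z⟩).2 _ (W_eq ⟨j.1, z⟩).1
    have ha := Ar_pos j.2.2
    have hq : Measure.QuasiMeasurePreserving (fun x : ℝ => j.2.2 * x - j.2.1) volume volume :=
      (measurePreserving_sub_right volume (j.2.1 : ℝ)).quasiMeasurePreserving.comp
        ⟨by fun_prop, by rw [Real.map_volume_mul_left ha.ne']; exact Measure.smul_absolutelyContinuous⟩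
    filter_upwards [h1, hq.ae_eq h2] with x h3 h4
    simp only [Function.comp] at h4
    rw [val, val, w, h3, W_scale _ ha, w, h4]
  · rw [B_apply]; rfl
  · by_contra h
    unfold NonOrth at h
    push Not at h
    have h1 : G 2 z.2 z.1 = 0 := by
      refine bb_compl _ fun ⟨i, j⟩ => ?_
      fin_cases i
      · have h2 := h ⟨0, j⟩ ⟨1, z⟩ (by simp)
        have h3 : ⟪w ⟨0, j⟩, w ⟨1, z⟩⟫_ℂ = ⟪T (bb ⟨0, j⟩), T (bb ⟨1, z⟩)⟫_ℂ :=
          (Lp.fourierTransformₗᵢ ℝ ℂ).symm.inner_map_map _ _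
        have h4 : ⟪bb ⟨0, j⟩, bb ⟨1, z⟩⟫_ℂ = 0 := bb_on.2 (by simp)
        rw [h3] at h2
        simpa [T, S_zero, S_one, inner_add_right, h4] using h2
      · exact neg_pos' 2 zero_le_two j z
    have := (on_m' 2 (by simp)).1 z
    simp [h1] at this
  · intro k hk
    obtain ⟨x, hx, h1⟩ := Measure.exists_mem_of_measure_ne_zero_of_ae
      (s := Ioo (-2 : ℝ) (-1)) (by simp) (ae_restrict_of_ae hk)
    obtain ⟨y, hy, h2⟩ := Measure.exists_mem_of_measure_ne_zero_of_ae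
      (s := Ioc (2 : ℝ) 3) (by simp; norm_num) (ae_restrict_of_ae hk)
    have h3 := mult_pos y hy
    rw [h2, ← h1, mult_neg x ⟨hx.1.le, hx.2⟩ hx.1.ne'] at h3
    norm_num at h3

end Pool.Agent.Results.MP_38bcdd_an.Counter
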